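import Pool.Agent.H.MP_6d9676_an.A

set_option autoImplicit false

namespace Pool.Agent.Results.MP_6d9676_an.Yes
open Filter Set Topology MeasureTheory

/-- radial Laplacian in dimension four -/
noncomputable def lap (f : ℝ → ℝ) (r : ℝ) : ℝ := deriv (deriv f) r + 3 / r * deriv f r

theorem result (u : ℝ → ℝ → ℝ) (hs : ∀ a, ContDiff ℝ 4 (u a))
    (he : ∀ a r, 0 < r → lap (lap (u a)) r = -6 * Real.exp (4 * u a r))
    (h0 : ∀ a, u a 0 = 0 ∧ iteratedDeriv 1 (u a) 0 = 0 ∧ iteratedDeriv 2 (u a) 0 = a ∧
      iteratedDeriv 3 (u a) 0 = 0) :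
    (∀ a, Integrable fun x : EuclideanSpace ℝ (Fin 4) => Real.exp (4 * u a ‖x‖)) ∧
    Tendsto (fun a => ∫ x : EuclideanSpace ℝ (Fin 4), Real.exp (4 * u a ‖x‖)) atTop atTop := by
  have key : ∀ a, IntegrableOn (fun r => r ^ 3 * Real.exp (4 * u a r)) (Ioi 0) ∧
      (0 ≤ a → ∀ R, 0 < R → 2 * R ^ 2 * (4 * a - 3 / 4 * Real.exp (2 * a * R ^ 2) * R ^ 2) ≤
        6 * ∫ s in Ioi 0, s ^ 3 * Real.exp (4 * u a s)) := by
    intro a
    obtain ⟨z0, z1, z2, -⟩ := h0 a
    have c1 : ContDiff ℝ 3 (deriv (u a)) := (hs a).deriv'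
    have c2 : ContDiff ℝ 2 (deriv (deriv (u a))) := c1.deriv'
    have c3 : ContDiff ℝ 1 (deriv (deriv (deriv (u a)))) := c2.deriv'
    have d0 := fun r => ((hs a).differentiable (by norm_num) r).hasDerivAt
    have d1 := fun r => (c1.differentiable (by norm_num) r).hasDerivAt
    have d2 := fun r => (c2.differentiable (by norm_num) r).hasDerivAt
    have d3 := fun r => (c3.differentiable (by norm_num) r).hasDerivAt
    rw [iteratedDeriv_one] at z1
    rw [iteratedDeriv_succ, iteratedDeriv_one] at z2
    have he' := he a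
    set f := u a
    set f1 := deriv f
    set f2 := deriv f1
    set f3 := deriv f2
    set q : ℝ → ℝ := fun r => r ^ 3 * f3 r + 3 * r ^ 2 * f2 r - 3 * r * f1 r with hq
    have qd : Differentiable ℝ q := by
      have := c1.differentiable (by norm_num)
      have := c2.differentiable (by norm_num)
      have := c3.differentiable (by norm_num)
      fun_prop
    have hP : ∀ r, 0 < r → HasDerivAt (fun s => s ^ 3 * f1 s) (r ^ 3 * lap f r) r := by
      intro r hr
      refine ((hasDerivAt_pow 3 r).mul (d1 r)).congr_deriv ?_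
      show _ = r ^ 3 * (f2 r + 3 / r * f1 r)
      field_simp; norm_num; ring
    have hw : ∀ r, 0 < r → HasDerivAt (lap f) (q r / r ^ 3) r := by
      intro r hr
      refine ((d2 r).add ((((hasDerivAt_const r (3 : ℝ)).div (hasDerivAt_id r) hr.ne')).mul
        (d1 r))).congr_deriv ?_
      simp only [hq, id, Pi.div_apply]
      field_simp; ring
    have hqd : ∀ r, 0 < r → HasDerivAt q (-6 * (r ^ 3 * Real.exp (4 * f r))) r := by
      intro r hr
      have e1 : deriv (lap f) =ᶠ[𝓝 r] fun s => q s / s ^ 3 := by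
        filter_upwards [Ioi_mem_nhds hr] with s hs using (hw s hs).deriv
      have e2 := ((qd r).hasDerivAt.div (hasDerivAt_pow 3 r) (pow_pos hr 3).ne').deriv
      have e3 := he' r hr
      rw [lap, e1.deriv_eq, (hw r hr).deriv] at e3
      have e4 : deriv (fun s => q s / s ^ 3) r = _ := e2
      rw [e4] at e3
      refine (qd r).hasDerivAt.congr_deriv ?_
      field_simp at e3
      norm_num at e3
      have : r ^ 3 * deriv q r = r ^ 3 * (-6 * (r ^ 3 * Real.exp (4 * f r))) := by
        linear_combination e3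
      exact mul_left_cancel₀ (pow_pos hr 3).ne' this
    have hl : Tendsto (lap f) (𝓝[>] 0) (𝓝 (4 * a)) := by
      have t1 := Pool.Agent.H.MP_6d9676_an.ct c2.continuous z2
      have t2 := (hasDerivAt_iff_tendsto_slope_zero.1 (d1 0)).mono_left
        (nhdsGT_le_nhdsNE (0 : ℝ))
      have := t1.add (t2.const_mul 3)
      rw [z2, show a + 3 * a = 4 * a by ring] at this
      refine this.congr fun s => ?_
      show _ = f2 s + 3 / s * f1 s
      simp only [zero_add, z1, sub_zero, smul_eq_mul]; ring
    exact ⟨Pool.Agent.H.MP_6d9676_an.intg d0 hP hw hqd, fun ha R hR =>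
      Pool.Agent.H.MP_6d9676_an.low d0 c1.continuous qd.continuous z0 (by simp [hq]) hP hw hqd hl
        ha hR⟩
  refine ⟨fun a => ?_, ?_⟩
  · rw [integrable_fun_norm_addHaar volume (f := fun r => Real.exp (4 * u a r))]
    simpa using (key a).1
  · have hv : 0 < volume.real (Metric.ball (0 : EuclideanSpace ℝ (Fin 4)) 1) :=
      ENNReal.toReal_pos (Metric.measure_ball_pos _ _ one_pos).ne' measure_ball_lt_top.ne
    have t : Tendsto (fun a => ∫ s in Ioi 0, s ^ 3 * Real.exp (4 * u a s)) atTop atTop := by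
      refine tendsto_atTop.2 fun b => ?_
      set K := |b| + 1 with hK
      have K0 : 0 < K := by positivity
      filter_upwards [eventually_ge_atTop (Real.exp (2 * K) * K + 1)] with a ha
      have e0 := mul_pos (Real.exp_pos (2 * K)) K0
      have a0 : 0 < a := by linarith
      have := (key a).2 a0.le (√(K / a)) (by positivity)
      rw [Real.sq_sqrt (by positivity), show 2 * a * (K / a) = 2 * K by field_simp] at this
      have h1 : Real.exp (2 * K) * (K / a) ≤ a := by
        rw [← mul_div_assoc, div_le_iff₀ a0]; nlinarith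
      have h2 : 2 * (K / a) * (3 * a) ≤ 2 * (K / a) * (4 * a - 3 / 4 * Real.exp (2 * K) * (K / a)) := by
        gcongr; linarith
      have h3 : 2 * (K / a) * (3 * a) = 6 * K := by field_simp; ring
      have := le_abs_self b
      linarith
    refine ((t.const_mul_atTop hv).const_mul_atTop (by norm_num : (0 : ℝ) < 4)).congr fun a => ?_
    rw [integral_fun_norm_addHaar volume (f := fun r => Real.exp (4 * u a r))]
    simp

end Pool.Agent.Results.MP_6d9676_an.Yes
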